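import Pool.Agent.H25.GD.Targets

/-!
# The interior of a triangle
-/

set_option autoImplicit false

namespace Pool.Agent.H25.GD

open Pool.Agent.H44.DU MeasureTheory Filter Topology

variable {n : ℕ} (S : Surf n)

/-- The cross product. -/
def cr (z w : ℂ) : ℝ := z.re * w.im - z.im * w.re

lemma cr_pos (i : Fin n) : 0 < cr (S.v i 1 - S.v i 0) (S.v i 2 - S.v i 0) := S.orient i

lemma bary (i : Fin n) (z : ℂ) :
    z = (1 - cr (z - S.v i 0) (S.v i 2 - S.v i 0) / cr (S.v i 1 - S.v i 0) (S.v i 2 - S.v i 0) -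
        cr (S.v i 1 - S.v i 0) (z - S.v i 0) / cr (S.v i 1 - S.v i 0) (S.v i 2 - S.v i 0)) •
          S.v i 0 +
      (cr (z - S.v i 0) (S.v i 2 - S.v i 0) / cr (S.v i 1 - S.v i 0) (S.v i 2 - S.v i 0)) •
        S.v i 1 +
      (cr (S.v i 1 - S.v i 0) (z - S.v i 0) / cr (S.v i 1 - S.v i 0) (S.v i 2 - S.v i 0)) •
        S.v i 2 := by
  have h := (cr_pos S i).ne'
  have h' : cr (S.v i 1 - S.v i 0) (S.v i 2 - S.v i 0) =
    (S.v i 1 - S.v i 0).re * (S.v i 2 - S.v i 0).im -
      (S.v i 1 - S.v i 0).im * (S.v i 2 - S.v i 0).re := rfl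
  apply Complex.ext
  · simp only [Complex.add_re, Complex.smul_re, smul_eq_mul]
    field_simp
    simp only [cr, Complex.sub_re, Complex.sub_im]
    ring
  · simp only [Complex.add_im, Complex.smul_im, smul_eq_mul]
    field_simp
    simp only [cr, Complex.sub_re, Complex.sub_im]
    ring

lemma mem_tri (i : Fin n) {a b c : ℝ} (ha : 0 ≤ a) (hb : 0 ≤ b) (hc : 0 ≤ c)
    (h : a + b + c = 1) : a • S.v i 0 + b • S.v i 1 + c • S.v i 2 ∈ S.tri i := by
  have hc' : Convex ℝ (S.tri i) := convex_convexHull ℝ _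
  have hv : ∀ k, S.v i k ∈ S.tri i := fun k => subset_convexHull ℝ _ ⟨k, rfl⟩
  have := hc'.sum_mem (t := Finset.univ) (w := ![a, b, c]) (z := S.v i) ?_ ?_ (fun k _ => hv k)
  · simpa [Fin.sum_univ_three] using this
  · intro k _
    fin_cases k <;> simp [ha, hb, hc]
  · simp [Fin.sum_univ_three, h]

lemma mem_int (i : Fin n) {a b c : ℝ} (ha : 0 < a) (hb : 0 < b) (hc : 0 < c)
    (h : a + b + c = 1) : a • S.v i 0 + b • S.v i 1 + c • S.v i 2 ∈ interior (S.tri i) := by
  set D := cr (S.v i 1 - S.v i 0) (S.v i 2 - S.v i 0) with hD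
  have hD0 : 0 < D := cr_pos S i
  let U : Set ℂ := {z | 0 < 1 - cr (z - S.v i 0) (S.v i 2 - S.v i 0) / D -
        cr (S.v i 1 - S.v i 0) (z - S.v i 0) / D ∧
      0 < cr (z - S.v i 0) (S.v i 2 - S.v i 0) / D ∧
      0 < cr (S.v i 1 - S.v i 0) (z - S.v i 0) / D}
  have hU : IsOpen U := by
    have c1 : Continuous fun z : ℂ => cr (z - S.v i 0) (S.v i 2 - S.v i 0) / D := by
      unfold cr
      fun_prop
    have c2 : Continuous fun z : ℂ => cr (S.v i 1 - S.v i 0) (z - S.v i 0) / D := by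
      unfold cr
      fun_prop
    exact ((isOpen_lt continuous_const ((continuous_const.sub c1).sub c2)).inter
      ((isOpen_lt continuous_const c1).inter (isOpen_lt continuous_const c2)))
  have hsub : U ⊆ S.tri i := by
    rintro z ⟨h1, h2, h3⟩
    rw [bary S i z]
    exact mem_tri S i h1.le h2.le h3.le (by ring)
  apply mem_interior.2 ⟨U, hsub, hU, ?_⟩
  have e0 : a = 1 - b - c := by linarith
  have e1 : cr (a • S.v i 0 + b • S.v i 1 + c • S.v i 2 - S.v i 0) (S.v i 2 - S.v i 0) =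
      b * D := by
    rw [hD, e0]
    simp only [cr, Complex.sub_re, Complex.sub_im, Complex.add_re, Complex.add_im,
      Complex.smul_re, Complex.smul_im, smul_eq_mul]
    ring
  have e2 : cr (S.v i 1 - S.v i 0) (a • S.v i 0 + b • S.v i 1 + c • S.v i 2 - S.v i 0) =
      c * D := by
    rw [hD, e0]
    simp only [cr, Complex.sub_re, Complex.sub_im, Complex.add_re, Complex.add_im,
      Complex.smul_re, Complex.smul_im, smul_eq_mul]
    ring
  refine ⟨?_, ?_, ?_⟩
  · rw [e1, e2, mul_div_cancel_right₀ _ hD0.ne', mul_div_cancel_right₀ _ hD0.ne']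
    linarith
  · rw [e1, mul_div_cancel_right₀ _ hD0.ne']
    exact hb
  · rw [e2, mul_div_cancel_right₀ _ hD0.ne']
    exact hc

lemma exists_vertex_xl (t : ℝ) (i : Fin n) : ∃ k, xi t (S.v i k) = S.xl t i := by
  unfold Surf.xl
  rcases min_choice (xi t (S.v i 0)) (min (xi t (S.v i 1)) (xi t (S.v i 2))) with h | h
  · exact ⟨0, h.symm⟩
  · rcases min_choice (xi t (S.v i 1)) (xi t (S.v i 2)) with h' | h'
    · exact ⟨1, by rw [h, h']⟩
    · exact ⟨2, by rw [h, h']⟩

lemma exists_vertex_xr (t : ℝ) (i : Fin n) : ∃ k, xi t (S.v i k) = S.xr t i := by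
  unfold Surf.xr
  rcases max_choice (xi t (S.v i 0)) (max (xi t (S.v i 1)) (xi t (S.v i 2))) with h | h
  · exact ⟨0, h.symm⟩
  · rcases max_choice (xi t (S.v i 1)) (xi t (S.v i 2)) with h' | h'
    · exact ⟨1, by rw [h, h']⟩
    · exact ⟨2, by rw [h, h']⟩

lemma xl_le (t : ℝ) (i : Fin n) (k : Fin 3) : S.xl t i ≤ xi t (S.v i k) := by
  unfold Surf.xl
  fin_cases k
  · exact min_le_left _ _
  · exact (min_le_right _ _).trans (min_le_left _ _)
  · exact (min_le_right _ _).trans (min_le_right _ _)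

lemma le_xr (t : ℝ) (i : Fin n) (k : Fin 3) : xi t (S.v i k) ≤ S.xr t i := by
  unfold Surf.xr
  fin_cases k
  · exact le_max_left _ _
  · exact (le_max_left _ _).trans (le_max_right _ _)
  · exact (le_max_right _ _).trans (le_max_right _ _)

lemma xi_smul (t a : ℝ) (z : ℂ) : xi t (a • z) = a * xi t z := by
  simp [xi]; ring

lemma xi_mem_range (t : ℝ) (i : Fin n) {z : ℂ} (hz : z ∈ S.tri i) :
    S.xl t i ≤ xi t z ∧ xi t z ≤ S.xr t i := by
  have hc : Convex ℝ {w : ℂ | S.xl t i ≤ xi t w ∧ xi t w ≤ S.xr t i} := by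
    intro x hx y hy a b ha hb hab
    have hx1 : S.xl t i ≤ xi t x ∧ xi t x ≤ S.xr t i := hx
    have hy1 : S.xl t i ≤ xi t y ∧ xi t y ≤ S.xr t i := hy
    have e : xi t (a • x + b • y) = a * xi t x + b * xi t y := by
      rw [xi_add, xi_smul, xi_smul]
    have eb : b = 1 - a := by linarith
    change S.xl t i ≤ xi t (a • x + b • y) ∧ xi t (a • x + b • y) ≤ S.xr t i
    rw [e]
    constructor
    · have h1 := mul_le_mul_of_nonneg_left hx1.1 ha
      have h2 := mul_le_mul_of_nonneg_left hy1.1 hb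
      have h3 : a * S.xl t i + b * S.xl t i = S.xl t i := by rw [← add_mul, hab, one_mul]
      linarith
    · have h1 := mul_le_mul_of_nonneg_left hx1.2 ha
      have h2 := mul_le_mul_of_nonneg_left hy1.2 hb
      have h3 : a * S.xr t i + b * S.xr t i = S.xr t i := by rw [← add_mul, hab, one_mul]
      linarith
  exact convexHull_min (by rintro _ ⟨k, rfl⟩; exact ⟨xl_le S t i k, le_xr S t i k⟩) hc hz

/-- Every leaf of the open range passes through the interior. -/
lemma exists_interior (t : ℝ) (i : Fin n) {y : ℝ} (h1 : S.xl t i < y) (h2 : y < S.xr t i) :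
    ∃ z ∈ interior (S.tri i), xi t z = y := by
  have hconv : Convex ℝ (S.tri i) := convex_convexHull ℝ _
  have hv : ∀ k, S.v i k ∈ S.tri i := fun k => subset_convexHull ℝ _ ⟨k, rfl⟩
  set z0 : ℂ := (1 / 3 : ℝ) • S.v i 0 + (1 / 3 : ℝ) • S.v i 1 + (1 / 3 : ℝ) • S.v i 2 with hz0
  have hz : z0 ∈ interior (S.tri i) :=
    mem_int S i (by norm_num) (by norm_num) (by norm_num) (by norm_num)
  obtain ⟨k, hk⟩ := exists_vertex_xl S t i
  obtain ⟨k', hk'⟩ := exists_vertex_xr S t i
  rcases lt_trichotomy y (xi t z0) with h | h | h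
  · set l := (y - S.xl t i) / (xi t z0 - S.xl t i) with hl
    have hd : 0 < xi t z0 - S.xl t i := by linarith
    have l0 : 0 < l := div_pos (by linarith) hd
    have l1 : l ≤ 1 := (div_le_one hd).2 (by linarith)
    refine ⟨l • z0 + (1 - l) • S.v i k, ?_, ?_⟩
    · exact hconv.combo_interior_self_mem_interior hz (hv k) l0 (by linarith) (by ring)
    · rw [xi_add, xi_smul, xi_smul, hk]
      have : l * (xi t z0 - S.xl t i) = y - S.xl t i := div_mul_cancel₀ _ hd.ne'
      linarith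
  · exact ⟨z0, hz, h.symm⟩
  · set l := (S.xr t i - y) / (S.xr t i - xi t z0) with hl
    have hd : 0 < S.xr t i - xi t z0 := by linarith
    have l0 : 0 < l := div_pos (by linarith) hd
    have l1 : l ≤ 1 := (div_le_one hd).2 (by linarith)
    refine ⟨l • z0 + (1 - l) • S.v i k', ?_, ?_⟩
    · exact hconv.combo_interior_self_mem_interior hz (hv k') l0 (by linarith) (by ring)
    · rw [xi_add, xi_smul, xi_smul, hk']
      have : l * (S.xr t i - xi t z0) = S.xr t i - y := div_mul_cancel₀ _ hd.ne'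
      linarith

/-- The range is not empty. -/
lemma xl_lt_xr (t : ℝ) (i : Fin n) : S.xl t i < S.xr t i := by
  by_contra hcon
  have h0 : ∀ k, xi t (S.v i k) = S.xl t i := fun k =>
    le_antisymm ((le_xr S t i k).trans (not_lt.1 hcon)) (xl_le S t i k)
  have h := cr_pos S i
  have e1 : xi t (S.v i 1 - S.v i 0) = 0 := by rw [xi_sub, h0, h0, sub_self]
  have e2 : xi t (S.v i 2 - S.v i 0) = 0 := by rw [xi_sub, h0, h0, sub_self]
  have f1 : (S.v i 1 - S.v i 0).re = t * (S.v i 1 - S.v i 0).im := sub_eq_zero.1 e1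
  have f2 : (S.v i 2 - S.v i 0).re = t * (S.v i 2 - S.v i 0).im := sub_eq_zero.1 e2
  rw [cr, f1, f2] at h
  have : t * (S.v i 1 - S.v i 0).im * (S.v i 2 - S.v i 0).im -
    (S.v i 1 - S.v i 0).im * (t * (S.v i 2 - S.v i 0).im) = 0 := by ring
  linarith

end Pool.Agent.H25.GD
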