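import Pool.Agent.H44.GT.Targets

/-!
# Dilation surfaces of genus at most two: intersections of invariant measures, densities

The statements of the modules of the blocks W and V.
-/

set_option autoImplicit false

namespace Pool.Agent.H44.DU

open MeasureTheory Filter Topology

/-- The measure `μ` has the distribution function `p`. -/
def Dist (p : ℝ → ℝ) (μ : Measure ℝ) : Prop :=
  ∀ x y : ℝ, x ≤ y → μ (Set.Ioc x y) = ENNReal.ofReal (p y - p x)

/-- The symmetric difference quotient. -/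
noncomputable def mo (ε : ℝ) (p : ℝ → ℝ) (x : ℝ) : ℝ := (p (x + ε) - p (x - ε)) / (2 * ε)

/-- The closed box of the points whose leaves have a coordinate between `a` and `b` and whose
height is between `c` and `d`. -/
def bx (t a b c d : ℝ) : Set ℂ := {z | a ≤ xi t z ∧ xi t z ≤ b ∧ c ≤ z.im ∧ z.im ≤ d}

/-- The same box without its right side. -/
def hbx (t a b c d : ℝ) : Set ℂ := {z | a ≤ xi t z ∧ xi t z < b ∧ c ≤ z.im ∧ z.im ≤ d}

namespace Surf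

variable {n : ℕ} (S : Surf n)

/-- The integral along a side of the function `p` of the leaves of slope `t` with respect to the
measure `ν` on the leaves of slope `t'`. -/
noncomputable def SI (t t' : ℝ) (p : Fin n → ℝ → ℝ) (ν : Fin n → Measure ℝ) (s : Side n) : ℝ :=
  ∫ y in (xi t' (S.Q s))..(xi t' (S.P s)), p s.1 (xi t (S.pt t' s y)) ∂(ν s.1)

/-- The term of the endpoints of a side. -/
noncomputable def ct (t t' : ℝ) (p q : Fin n → ℝ → ℝ) (s : Side n) : ℝ :=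
  (p s.1 (xi t (S.P s)) + p s.1 (xi t (S.Q s))) *
    (q s.1 (xi t' (S.P s)) - q s.1 (xi t' (S.Q s))) / 2

end Surf

/-! ## Block W -/

/-- A monotone continuous function is the distribution function of a measure. -/
def W_MEA : Prop :=
  ∀ p : ℝ → ℝ, Monotone p → Continuous p →
    ∃ μ : Measure ℝ, Dist p μ ∧ IsLocallyFiniteMeasure μ ∧ NullSingletonClass μ

/-- The integral along a side, minus the term of the endpoints, is odd. -/
def W_SID : Prop :=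
  ∀ (n : ℕ) (S : Surf n) (t t' : ℝ) (p q : Fin n → ℝ → ℝ) (ν : Fin n → Measure ℝ),
    S.IM t p → S.IM t' q → (∀ i, Dist (q i) (ν i)) → (∀ i, IsLocallyFiniteMeasure (ν i)) →
    (∀ i, NullSingletonClass (ν i)) → ∀ s,
    S.SI t t' p ν (S.gl s) + S.SI t t' p ν s = S.ct t t' p q (S.gl s) + S.ct t t' p q s

/-- The sum of the integrals along the sides of a triangle. -/
def W_TRI : Prop :=
  ∀ (n : ℕ) (S : Surf n) (t t' : ℝ) (p : Fin n → ℝ → ℝ) (ν : Fin n → Measure ℝ) (i : Fin n),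
    t ≤ t' → Monotone (p i) → Continuous (p i) → IsLocallyFiniteMeasure (ν i) →
    NullSingletonClass (ν i) →
    ∃ l h : ℝ → ℝ,
      (∀ z ∈ S.tri i, S.xl t' i < xi t' z → xi t' z < S.xr t' i →
        l (xi t' z) ≤ xi t z ∧ xi t z ≤ h (xi t' z)) ∧
      (t = t' → ∀ y, S.xl t' i < y → y < S.xr t' i → h y = l y) ∧
      IntegrableOn (fun y => p i (h y) - p i (l y)) (Set.Ioo (S.xl t' i) (S.xr t' i)) (ν i) ∧
      ∑ k : Fin 3, S.SI t t' p ν (i, k) =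
        ∫ y in Set.Ioo (S.xl t' i) (S.xr t' i), (p i (h y) - p i (l y)) ∂(ν i)

/-- The intersection of two invariant measures. -/
def W_KEY : Prop :=
  ∀ (n : ℕ) (S : Surf n) (t t' : ℝ) (p q : Fin n → ℝ → ℝ), t ≤ t' → S.IM t p → S.IM t' q →
    ∃ (ν : Fin n → Measure ℝ) (l h : Fin n → ℝ → ℝ),
      (∀ i, Dist (q i) (ν i)) ∧ (∀ i, IsLocallyFiniteMeasure (ν i)) ∧ (∀ i, NullSingletonClass (ν i)) ∧
      (∀ i, ∀ z ∈ S.tri i, S.xl t' i < xi t' z → xi t' z < S.xr t' i →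
        l i (xi t' z) ≤ xi t z ∧ xi t z ≤ h i (xi t' z)) ∧
      (t = t' → ∀ i y, S.xl t' i < y → y < S.xr t' i → h i y = l i y) ∧
      (∀ i, IntegrableOn (fun y => p i (h i y) - p i (l i y))
        (Set.Ioo (S.xl t' i) (S.xr t' i)) (ν i)) ∧
      Surf.Om (S.cc t p) (S.cc t' q) =
        2 * ∑ i, ∫ y in Set.Ioo (S.xl t' i) (S.xr t' i), (p i (h i y) - p i (l i y)) ∂(ν i)

/-! ## Block V -/

/-- The averages of two invariant measures and their intersection. -/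
def V_PAIR : Prop :=
  ∀ (n : ℕ) (S : Surf n) (t t' ε η B : ℝ) (p q : Fin n → ℝ → ℝ) (i : Fin n) (U : Set ℂ),
    t < t' → |t| ≤ B → |t'| ≤ B → 0 < ε → 0 < η → 8 * (1 + B) * ε ≤ η * (t' - t) →
    S.IM t p → S.IM t' q → MeasurableSet U → (∀ z ∈ U, ∀ w : ℂ, ‖w - z‖ ≤ η → w ∈ S.tri i) →
    2 * (t' - t) * ∫ z in U, mo ε (p i) (xi t z) * mo ε (q i) (xi t' z) ≤
      Surf.Om (S.cc t p) (S.cc t' q)

/-- The square of an average over a set of parameters. -/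
def V_ABS : Prop :=
  ∀ (J : Set ℝ) (U : Set ℂ) (g : ℝ → ℂ → ℝ) (ρ C N B : ℝ), MeasurableSet J → MeasurableSet U →
    volume J < ⊤ → volume U < ⊤ → 0 ≤ ρ → 0 ≤ C → 0 ≤ N →
    ContinuousOn (fun q : ℝ × ℂ => g q.1 q.2) (J ×ˢ U) →
    (∀ t ∈ J, ∀ z ∈ U, 0 ≤ g t z ∧ g t z ≤ B) →
    (∀ t ∈ J, ∀ t' ∈ J, ρ ≤ t' - t → ∫ z in U, g t z * g t' z ≤ C) →
    (∀ t ∈ J, ∀ t' ∈ J, ∫ z in U, g t z * g t' z ≤ N) →
    IntegrableOn (fun z => (∫ t in J, g t z) ^ 2) U ∧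
    ∫ z in U, (∫ t in J, g t z) ^ 2 ≤
      C * (volume J).toReal ^ 2 + 2 * ρ * N * (volume J).toReal

/-- The integrals of averages over boxes. -/
def V_BXI : Prop :=
  ∀ (a b c d : ℝ), a ≤ b → c ≤ d →
    (∀ t, MeasurableSet (hbx t a b c d) ∧
      volume (hbx t a b c d) = ENNReal.ofReal ((b - a) * (d - c))) ∧
    ∀ (p : ℝ → ℝ) (t t₀ ε H : ℝ), Monotone p → Continuous p → 0 < ε → |c| ≤ H → |d| ≤ H →
      IntegrableOn (fun z => mo ε p (xi t z)) (hbx t₀ a b c d) ∧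
      (d - c) * (p (b - ε - |t₀ - t| * H) - p (a + ε + |t₀ - t| * H)) ≤
        ∫ z in hbx t₀ a b c d, mo ε p (xi t z) ∧
      ∫ z in hbx t₀ a b c d, mo ε p (xi t z) ≤
        (d - c) * (p (b + ε + |t₀ - t| * H) - p (a - ε - |t₀ - t| * H))

/-- The inequality for the boxes. -/
def V_BOX : Prop :=
  ∀ (n : ℕ) (S : Surf n) (K : Set ℝ) (P : ℝ → Fin n → ℝ → ℝ) (C t₀ : ℝ) (i : Fin n),
    IsCompact K → 0 ≤ C → (∀ t ∈ K, S.NM t (P t)) →
    (∀ i, ContinuousOn (fun q : ℝ × ℝ => P q.1 i q.2) (K ×ˢ Set.univ)) →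
    (∀ t ∈ K, ∀ t' ∈ K, t < t' → Surf.Om (S.cc t (P t)) (S.cc t' (P t')) ≤ C * (t' - t)) →
    t₀ ∈ K → (∀ δ > (0 : ℝ), 0 < volume (K ∩ Set.Ioo (t₀ - δ) (t₀ + δ))) →
    ∀ (m : ℕ) (x c d : ℕ → ℝ), (∀ j < m, x j < x (j + 1) ∧ c j < d j ∧
      bx t₀ (x j) (x (j + 1)) (c j) (d j) ⊆ interior (S.tri i)) →
    ∑ j ∈ Finset.range m, (P t₀ i (x (j + 1)) - P t₀ i (x j)) ^ 2 * (d j - c j) /
      (x (j + 1) - x j) ≤ C / 2

/-- There are boxes of constant height over the compact intervals of leaves. -/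
def V_LOC : Prop :=
  ∀ (n : ℕ) (S : Surf n) (t : ℝ) (i : Fin n) (a b : ℝ), S.xl t i < a → a < b → b < S.xr t i →
    ∃ h > (0 : ℝ), ∃ m₀ : ℕ, ∀ m : ℕ, m₀ ≤ m → 0 < m → ∃ c : ℕ → ℝ, ∀ j : ℕ, j < m →
      bx t (a + j * ((b - a) / m)) (a + (j + 1 : ℕ) * ((b - a) / m)) (c j) (c j + h) ⊆
        interior (S.tri i)

/-- The theorem of F. Riesz on square integrable derivatives. -/
def V_RSZ : Prop :=
  ∀ (p : ℝ → ℝ) (a b C : ℝ) (m₀ : ℕ), a < b → Monotone p → Continuous p →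
    (∀ m : ℕ, m₀ ≤ m → 0 < m → ∑ j ∈ Finset.range m,
      (p (a + (j + 1 : ℕ) * ((b - a) / m)) - p (a + j * ((b - a) / m))) ^ 2 /
        ((b - a) / m) ≤ C) →
    IntegrableOn (fun x => deriv p x ^ 2) (Set.Icc a b) ∧
    ∀ x y, a ≤ x → x ≤ y → y ≤ b → ∫ u in x..y, deriv p u = p y - p x

/-- The derivatives of an invariant measure. -/
def V_DER : Prop :=
  ∀ (n : ℕ) (S : Surf n) (t : ℝ) (p : Fin n → ℝ → ℝ), S.IM t p →
    ∀ (r : Side n) (x : ℝ), S.InJ t r x →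
      deriv (p (S.gl r).1) (S.mv t r x) = deriv (p r.1) x / S.a r

/-- A locally square integrable density is square integrable: one turns around the extreme
vertices. -/
def V_FAN : Prop :=
  ∀ (n : ℕ) (S : Surf n) (t : ℝ) (f : Fin n → ℝ → ℝ), S.Gd t → (∀ i, Measurable (f i)) →
    (∀ (r : Side n) (x : ℝ), S.InJ t r x → f (S.gl r).1 (S.mv t r x) = f r.1 x / S.a r) →
    (∀ (i : Fin n) (a b : ℝ), S.xl t i < a → a < b → b < S.xr t i →
      IntegrableOn (fun x => f i x ^ 2) (Set.Icc a b)) →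
    ∀ i, IntegrableOn (fun x => f i x ^ 2) (Set.Ioo (S.xl t i) (S.xr t i))

end Pool.Agent.H44.DU
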