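import Pool.Agent.H25.GD.Geo

/-!
# Densities: assembly
-/

set_option autoImplicit false

namespace Pool.Agent.H25.GD

open Pool.Agent.H44.DU MeasureTheory Filter Topology

lemma ex_dens (K : Set ℝ) (h : 0 < volume K) :
    ∃ t ∈ K, ∀ δ > (0 : ℝ), 0 < volume (K ∩ Set.Ioo (t - δ) (t + δ)) := by
  obtain ⟨t, ht, h⟩ := exists_mem_forall_mem_nhdsWithin_pos_measure (μ := volume) h.ne'
  refine ⟨t, ht, fun δ hδ => h _ ?_⟩
  exact inter_mem self_mem_nhdsWithin
    (mem_nhdsWithin_of_mem_nhds (Ioo_mem_nhds (by linarith) (by linarith)))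

/-- The local statement. -/
lemma loc_dens (h1 : V_BOX) (h2 : V_LOC) (h3 : V_RSZ) {n : ℕ} (S : Surf n) (K : Set ℝ)
    (P : ℝ → Fin n → ℝ → ℝ) (C t₀ : ℝ) (i : Fin n)
    (hK : IsCompact K) (hC : 0 ≤ C) (hP : ∀ t ∈ K, S.NM t (P t))
    (hc : ∀ i, ContinuousOn (fun q : ℝ × ℝ => P q.1 i q.2) (K ×ˢ Set.univ))
    (hO : ∀ t ∈ K, ∀ t' ∈ K, t < t' → Surf.Om (S.cc t (P t)) (S.cc t' (P t')) ≤ C * (t' - t))
    (ht : t₀ ∈ K) (hd : ∀ δ > (0 : ℝ), 0 < volume (K ∩ Set.Ioo (t₀ - δ) (t₀ + δ)))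
    {a b : ℝ} (ha : S.xl t₀ i < a) (hab : a < b) (hb : b < S.xr t₀ i) :
    IntegrableOn (fun x => deriv (P t₀ i) x ^ 2) (Set.Icc a b) ∧
    ∀ x y, a ≤ x → x ≤ y → y ≤ b → ∫ u in x..y, deriv (P t₀ i) u = P t₀ i y - P t₀ i x := by
  obtain ⟨h, h0, m₀, hm⟩ := h2 n S t₀ i a b ha hab hb
  refine h3 (P t₀ i) a b (C / 2 / h) m₀ hab ((hP t₀ ht).im.mono i) ((hP t₀ ht).im.cont i) ?_
  intro m hm0 hm1
  obtain ⟨c, hcb⟩ := hm m hm0 hm1
  have hm' : (0 : ℝ) < m := by exact_mod_cast hm1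
  have hD : 0 < (b - a) / m := div_pos (by linarith) hm'
  have key := h1 n S K P C t₀ i hK hC hP hc hO ht hd m (fun j => a + j * ((b - a) / m)) c
    (fun j => c j + h) ?_
  · rw [le_div_iff₀ h0, Finset.sum_mul]
    refine le_trans (le_of_eq ?_) key
    apply Finset.sum_congr rfl
    intro j _
    have e : a + ((j + 1 : ℕ) : ℝ) * ((b - a) / m) - (a + (j : ℝ) * ((b - a) / m)) =
        (b - a) / m := by push_cast; ring
    simp only [e, add_sub_cancel_left]
    ring
  · intro j hj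
    refine ⟨?_, by linarith, hcb j hj⟩
    push_cast
    nlinarith [hD]

theorem pf_V_0 (h1 : V_BOX) (h2 : V_LOC) (h3 : V_RSZ) (h4 : V_DER) (h5 : V_FAN) : V_0 := by
  intro n S K P C hn hK hvol hg hc hO
  obtain ⟨t₀, ht, hd⟩ := ex_dens K hvol
  have hP : ∀ t ∈ K, S.NM t (P t) := fun t h => (hg t h).2.1
  have hO' : ∀ t ∈ K, ∀ t' ∈ K, t < t' →
      Surf.Om (S.cc t (P t)) (S.cc t' (P t')) ≤ max C 0 * (t' - t) := by
    intro t h t' h' hlt
    refine (hO t h t' h' hlt).trans ?_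
    exact mul_le_mul_of_nonneg_right (le_max_left _ _) (by linarith)
  have hloc := fun (i : Fin n) (a b : ℝ) (ha : S.xl t₀ i < a) (hab : a < b)
    (hb : b < S.xr t₀ i) => loc_dens h1 h2 h3 S K P (max C 0) t₀ i hK (le_max_right _ _) hP hc hO'
      ht hd ha hab hb
  have im := (hP t₀ ht).im
  have hgl := h4 n S t₀ (P t₀) im
  have hsq := h5 n S t₀ (fun i => deriv (P t₀ i)) (hg t₀ ht).1
    (fun i => measurable_deriv _) hgl (fun i a b ha hab hb => (hloc i a b ha hab hb).1)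
  have hII : ∀ i a b, IntervalIntegrable (deriv (P t₀ i)) volume a b := fun i a b =>
    ((im.mono i).monotoneOn _).intervalIntegrable_deriv
  have hpf : ∀ i x, S.xl t₀ i ≤ x → x ≤ S.xr t₀ i →
      S.pf t₀ (fun i => deriv (P t₀ i)) i x = ∫ u in (S.xl t₀ i)..x, deriv (P t₀ i) u := by
    intro i x hx1 hx2
    have e : Set.Ioo (S.xl t₀ i) (S.xr t₀ i) ∩ Set.Iio x = Set.Ioo (S.xl t₀ i) x := by
      ext u
      simp only [Set.mem_inter_iff, Set.mem_Ioo, Set.mem_Iio]
      constructor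
      · rintro ⟨⟨u1, -⟩, u2⟩
        exact ⟨u1, u2⟩
      · rintro ⟨u1, u2⟩
        exact ⟨⟨u1, u2.trans_le hx2⟩, u2⟩
    unfold Surf.pf
    rw [e, intervalIntegral.integral_of_le hx1, integral_Ioc_eq_integral_Ioo]
  have hmain : ∀ i x y, S.xl t₀ i ≤ x → x ≤ y → y ≤ S.xr t₀ i →
      S.pf t₀ (fun i => deriv (P t₀ i)) i y - S.pf t₀ (fun i => deriv (P t₀ i)) i x =
        P t₀ i y - P t₀ i x := by
    intro i x y hx hxy hy
    have hlt := xl_lt_xr S t₀ i
    set L := S.xl t₀ i with hL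
    set R := S.xr t₀ i with hR
    set F : ℝ → ℝ := fun x => ∫ u in L..x, deriv (P t₀ i) u with hF
    have hFc : ContinuousOn F (Set.Icc L R) := by
      have := intervalIntegral.continuousOn_primitive_interval (μ := volume)
        (f := deriv (P t₀ i)) (a := L) (b := R) ?_
      · rwa [Set.uIcc_of_le hlt.le] at this
      · rw [Set.uIcc_of_le hlt.le]
        exact (intervalIntegrable_iff_integrableOn_Icc_of_le hlt.le).1 (hII i L R)
    set m := (L + R) / 2 with hm
    have hEq : Set.EqOn (fun x => F x - P t₀ i x) (fun _ => F m - P t₀ i m) (Set.Ioo L R) := by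
      intro u hu
      have hmm : m ∈ Set.Ioo L R := ⟨by linarith, by linarith⟩
      obtain ⟨a, ha1, ha2⟩ := exists_between (lt_min hu.1 hmm.1)
      obtain ⟨b, hb1, hb2⟩ := exists_between (max_lt hu.2 hmm.2)
      have q1 : a < u := ha2.trans_le (min_le_left _ _)
      have q2 : a < m := ha2.trans_le (min_le_right _ _)
      have q3 : u < b := (le_max_left _ _).trans_lt hb1
      have q4 : m < b := (le_max_right _ _).trans_lt hb1
      have hl := (hloc i a b ha1 (q1.trans q3) hb2).2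
      have i1 : F u - F m = ∫ v in m..u, deriv (P t₀ i) v := by
        rw [hF]
        exact intervalIntegral.integral_interval_sub_left (hII i L u) (hII i L m)
      rcases le_total m u with hmu | hmu
      · have := hl m u q2.le hmu q3.le
        simp only
        linarith
      · have := hl u m q1.le hmu q4.le
        rw [intervalIntegral.integral_symm] at i1
        simp only
        linarith
    have hcl := hEq.of_subset_closure (hFc.sub ((im.cont i).continuousOn)) continuousOn_const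
      Set.Ioo_subset_Icc_self (by rw [closure_Ioo hlt.ne])
    have c1 := hcl ⟨hx, hxy.trans hy⟩
    have c2 := hcl ⟨hx.trans hxy, hy⟩
    rw [hpf i y (hx.trans hxy) hy, hpf i x hx (hxy.trans hy)]
    simp only at c1 c2
    change F y - F x = _
    linarith
  refine ⟨t₀, ht, fun i => deriv (P t₀ i), ⟨fun i => measurable_deriv _,
    fun i x => (im.mono i).deriv_nonneg, hsq, fun r => Eventually.of_forall (hgl r), ?_⟩, hmain⟩
  refine ⟨⟨0, hn⟩, ?_⟩
  have hlt := xl_lt_xr S t₀ ⟨0, hn⟩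
  have e1 := hmain ⟨0, hn⟩ _ _ le_rfl hlt.le le_rfl
  rw [hpf _ _ le_rfl hlt.le, hpf _ _ hlt.le le_rfl, intervalIntegral.integral_same, sub_zero,
    intervalIntegral.integral_of_le hlt.le, integral_Ioc_eq_integral_Ioo] at e1
  rw [e1]
  have := (hg t₀ ht).2.2 ⟨0, hn⟩ _ _ le_rfl hlt le_rfl
  linarith

end Pool.Agent.H25.GD
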