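import Pool.Agent.H25.GD.Geo

/-!
# Intersections of invariant measures
-/

set_option autoImplicit false

namespace Pool.Agent.H25.GD

open Pool.Agent.H44.DU MeasureTheory Filter Topology

theorem pf_W_2 (h : W_KEY) : W_2 := by
  intro n S t p q hp hq
  obtain ⟨ν, l, u, h1, h2, h3, h4, h5, h6, h7⟩ := h n S t t p q le_rfl hp hq
  rw [h7]
  have : ∀ i : Fin n, ∫ y in Set.Ioo (S.xl t i) (S.xr t i), (p i (u i y) - p i (l i y)) ∂(ν i) =
      0 := by
    intro i
    rw [← integral_zero (α := ℝ) (G := ℝ) (μ := (ν i).restrict (Set.Ioo (S.xl t i) (S.xr t i)))]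
    apply setIntegral_congr_fun measurableSet_Ioo
    intro y hy
    simp only
    rw [h5 rfl i y hy.1 hy.2, sub_self]
  simp [this]

/-- On every leaf of the open range there are two points whose other coordinates are different. -/
lemma two_points {n : ℕ} (S : Surf n) {t t' y : ℝ} (i : Fin n) (htt : t < t')
    (h1 : S.xl t' i < y) (h2 : y < S.xr t' i) :
    ∃ z₁ ∈ S.tri i, ∃ z₂ ∈ S.tri i, xi t' z₁ = y ∧ xi t' z₂ = y ∧ xi t z₁ < xi t z₂ := by
  obtain ⟨z, hz, hy⟩ := exists_interior S t' i h1 h2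
  have hcont : Tendsto (fun e : ℝ => z + (e : ℂ) * ((t' : ℂ) + Complex.I)) (𝓝[>] 0) (𝓝 z) := by
    have : Continuous fun e : ℝ => z + (e : ℂ) * ((t' : ℂ) + Complex.I) := by fun_prop
    have h := this.tendsto 0
    simp only [Complex.ofReal_zero, zero_mul, add_zero] at h
    exact h.mono_left nhdsWithin_le_nhds
  have hev := hcont.eventually (isOpen_interior.mem_nhds hz)
  obtain ⟨e, he, he0⟩ := (hev.and self_mem_nhdsWithin).exists
  have he0' : (0 : ℝ) < e := he0
  refine ⟨z, interior_subset hz, _, interior_subset he, hy, ?_, ?_⟩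
  · rw [xi_add, xi_mul, xi_dir, mul_zero, add_zero, hy]
  · rw [xi_add, xi_mul]
    have : xi t ((t' : ℂ) + Complex.I) = t' - t := by simp [xi]
    rw [this]
    have := mul_pos he0' (sub_pos.2 htt)
    linarith

theorem pf_W_1 (h : W_KEY) : W_1 := by
  intro n S t t' p q hn htt hp hq sp sq
  obtain ⟨ν, l, u, h1, h2, h3, h4, h5, h6, h7⟩ := h n S t t' p q htt.le hp hq
  rw [h7]
  have hpos : ∀ i y, S.xl t' i < y → y < S.xr t' i → 0 < p i (u i y) - p i (l i y) := by
    intro i y y1 y2
    obtain ⟨z₁, m₁, z₂, m₂, e₁, e₂, hlt⟩ := two_points S i htt y1 y2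
    have a₁ := h4 i z₁ m₁ (by rw [e₁]; exact y1) (by rw [e₁]; exact y2)
    have a₂ := h4 i z₂ m₂ (by rw [e₂]; exact y1) (by rw [e₂]; exact y2)
    rw [e₁] at a₁
    rw [e₂] at a₂
    have b := sp i (xi t z₁) (xi t z₂) (xi_mem_range S t i m₁).1 hlt (xi_mem_range S t i m₂).2
    have c₁ := hp.mono i a₁.1
    have c₂ := hp.mono i a₂.2
    linarith
  have hint : ∀ i, 0 < ∫ y in Set.Ioo (S.xl t' i) (S.xr t' i), (p i (u i y) - p i (l i y))
      ∂(ν i) := by
    intro i
    rw [integral_pos_iff_support_of_nonneg_ae _ (h6 i)]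
    · rw [Measure.restrict_apply₀' nullMeasurableSet_Ioo]
      have hlt := xl_lt_xr S t' i
      set a := S.xl t' i + (S.xr t' i - S.xl t' i) / 3 with ha
      set b := S.xl t' i + (S.xr t' i - S.xl t' i) / 2 with hb
      have hsub : Set.Ioc a b ⊆ (Function.support fun y => p i (u i y) - p i (l i y)) ∩
          Set.Ioo (S.xl t' i) (S.xr t' i) := by
        intro y hy
        have y1 : S.xl t' i < y := by linarith [hy.1]
        have y2 : y < S.xr t' i := by linarith [hy.2]
        exact ⟨(hpos i y y1 y2).ne', y1, y2⟩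
      refine lt_of_lt_of_le ?_ (measure_mono hsub)
      rw [h1 i a b (by linarith)]
      rw [ENNReal.ofReal_pos]
      have := sq i a b (by linarith) (by linarith) (by linarith)
      linarith
    · filter_upwards [ae_restrict_mem measurableSet_Ioo] with y hy
      exact (hpos i y hy.1 hy.2).le
  have : 0 < ∑ i, ∫ y in Set.Ioo (S.xl t' i) (S.xr t' i), (p i (u i y) - p i (l i y)) ∂(ν i) :=
    Finset.sum_pos (fun i _ => hint i) ⟨⟨0, hn⟩, Finset.mem_univ _⟩
  linarith

end Pool.Agent.H25.GD
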